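import Pool.Agent.Lib.MP_688fd0_co.MET.Iface
import Pool.Agent.Lib.MP_688fd0_co.ASY.H91.PermFam

/-!
The cycles of a permutation along a connection set as a family of lists.
-/

set_option autoImplicit false

namespace Pool.Agent.Lib.MP_688fd0_co.MET.H91

open Pool.Agent.Lib.MP_688fd0_co.LP (IsP Cyc)
open Pool.Agent.Lib.MP_688fd0_co.LIN (PD)
open Pool.Agent.Lib.MP_688fd0_co.LPV (cayS cayS_adj)
open Pool.Agent.Lib.MP_688fd0_co.ASY.H91 (perm_family)

universe u

theorem fam : FamStatement.{u} := by
  classical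
  intro Γ _ _ A hA L hL hlong
  obtain ⟨σ, hσ, hper⟩ := hlong
  have hmov : ∀ x, σ x ≠ x := by
    intro x h
    have := hper x 1 one_pos (by simpa using h)
    omega
  obtain ⟨F, hF1, hF2, hF3⟩ := perm_family (G := cayS A) σ (by
    intro g hg
    rw [cayS_adj hA]
    exact ⟨fun h => hg h.symm, hσ g⟩) L hL (by
    intro g _ i hi hiL h
    have := hper g i hi h
    omega)
  refine ⟨F, hF1, hF2, le_antisymm ?_ ?_⟩
  · refine le_trans (le_of_eq ?_) hF3
    rw [← Finset.card_univ]
    congr 1
    ext g
    simp [hmov g]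
  · have h1 : ∀ c ∈ F, c.length = c.toFinset.card := fun c hc => (List.toFinset_card_of_nodup (hF1 c hc).1.1.2.2).symm
    rw [Finset.sum_congr rfl h1, ← Finset.card_biUnion]
    · exact Finset.card_le_univ _
    · intro c hc c' hc' hne
      change Disjoint c.toFinset c'.toFinset
      rw [Finset.disjoint_left]
      intro x hx hx'
      rw [List.mem_toFinset] at hx hx'
      exact hF2 c hc c' hc' hne hx hx'

end Pool.Agent.Lib.MP_688fd0_co.MET.H91
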